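import Pool.Agent.D0H40.PL.Main
import Pool.Agent.TH941.Newform

/-!
# The products of Birch and Swinnerton-Dyer along sequences, and their one-sided bounds

`E : y² = x³ + a x + b` is an elliptic curve over `ℚ`, `a, b ∈ ℤ`, `N_p` is the number of points modulo `p`
(with the point at infinity) and `P(x) = ∏_{p ≤ x, p ∤ 2Δ} N_p / p`.  `F` is the entire continuation of the
incomplete `L`-series and `m = ord_{s=1} F`.  Birch and Swinnerton-Dyer were led to the rank form of their
conjecture by the numerical observation `P(x) ~ A (log x)^rank`.  Goldfeld (1982) proved that if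
`P(x) ~ A (log x)^ρ` then the Riemann hypothesis holds for `F`, `ρ = m` and `A = T`, where
`T = √2 e^{mγ} m! / |F^{(m)}(1)|`.  Here the existence of an asymptotic formula is not assumed.

* If `F` has no real zeros `s > 1`, then `T` is always a limit point of `P(x) / (log x)^m`: there are
  `x_n → ∞` with `P(x_n) ~ T (log x_n)^m`.  So the rank form implies the original asymptotic formula along
  a sequence, with the exponent `rank E(ℚ)` and with Goldfeld's constant.
* Without any hypothesis on zeros, `P(x) > (T - ε) (log x)^m` for arbitrarily large `x`.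
* The set of the limit points of `P(x) / (log x)^m` is an interval (it contains with two numbers all
  the numbers between them); the original conjecture says that it is one positive number and `m` is the rank.
* The upper bound `P(x) ≤ (log x)^(ρ + o(1))` alone implies the Riemann hypothesis for `F` and
  `m ≤ ρ`; if `F` has no real zeros `s > 1`, then `P(x) ≥ (log x)^(ρ - o(1))` implies `ρ ≤ m`.

Proof.  The brackets for the product with a second order correction, by Landau's theorem on Laplace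
integrals of positive functions, are from the library (`Pool.Agent.W263.BSD`), and so is the theorem of Rankin
and Selberg (`Pool.Agent.TH941`), which gives the factor `√2`.  By Hasse's bound the quotients change
slowly, and an intermediate value argument gives the limit points.
-/

set_option autoImplicit false

namespace Pool.Agent.Results.MP_696deb_nt.ProductLimitPoints

open Filter Topology Classical CongruenceSubgroup UpperHalfPlane
open scoped MatrixGroups

/-- `N_p`: the number of points of `y² = x³ + a x + b` modulo `p`, with the point at infinity. -/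
noncomputable def numPoints (a b : ℤ) (p : ℕ) : ℕ :=
  Nat.card {q : ZMod p × ZMod p // q.2 ^ 2 = q.1 ^ 3 + (a : ZMod p) * q.1 + (b : ZMod p)} + 1

/-- `p` is a prime that does not divide `2 Δ`, where `Δ = -4 a³ - 27 b²`. -/
def Good (a b : ℤ) (p : ℕ) : Prop :=
  p.Prime ∧ ¬ ((p : ℤ) ∣ 2 * (-4 * a ^ 3 - 27 * b ^ 2))

/-- The original Birch and Swinnerton-Dyer product `P(x) = ∏_{p ≤ x, p ∤ 2Δ} N_p / p`. -/
noncomputable def P (a b : ℤ) (x : ℝ) : ℝ :=
  ∏ p ∈ (Finset.range (⌊x⌋₊ + 1)).filter (Good a b), ((numPoints a b p : ℝ) / p)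

/-- `F` is an entire function which for `Re s > 3/2` is the incomplete `L`-series
`∏_{p ∤ 2Δ} (1 - a_p p^{-s} + p^{1-2s})⁻¹`, `a_p = p + 1 - N_p`, of `y² = x³ + a x + b`. -/
def IsLSeries (a b : ℤ) (F : ℂ → ℂ) : Prop :=
  Differentiable ℂ F ∧ ∀ s : ℂ, (3 : ℝ) / 2 < s.re →
    HasProd (fun p : ℕ => if Good a b p then
      (1 - ((p : ℂ) + 1 - (numPoints a b p : ℂ)) * (p : ℂ) ^ (-s) + (p : ℂ) ^ (1 - 2 * s))⁻¹ else 1)
      (F s)

/-- The `n`-th Fourier coefficient of `f`. -/
noncomputable def coef {N : ℕ} (f : CuspForm (Gamma0 N : Subgroup (GL (Fin 2) ℝ)) 2) (n : ℕ) : ℂ :=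
  (qExpansion 1 f).coeff n

/-- `f ∈ S_2(Γ₀(N))` is the newform of the elliptic curve `E : y² = x³ + a x + b` of conductor `N`: the
Fourier coefficients `c(n)` of `f` are real with `c(1) = 1`, they satisfy the Hecke relations
`c(mn) = c(m) c(n)` for coprime `m`, `n` and `c(p^(j+2)) = c(p) c(p^(j+1)) - p c(p^j)` (without the last
term if `p ∣ N`), `c(p) = a_p = p + 1 - N_p` for all primes `p ∤ 2Δ`, `|c(p)| ≤ 2 √p` for all
`p ∤ N` (Hasse) and `c(p) = 0, 1, -1` for `p ∣ N`. -/
structure IsNewformOf (a b : ℤ) (N : ℕ) (f : CuspForm (Gamma0 N : Subgroup (GL (Fin 2) ℝ)) 2) :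
    Prop where
  one : coef f 1 = 1
  real : ∀ n, (coef f n).im = 0
  mul : ∀ m n : ℕ, Nat.Coprime m n → coef f (m * n) = coef f m * coef f n
  pow : ∀ p j : ℕ, p.Prime → coef f (p ^ (j + 2)) = coef f p * coef f (p ^ (j + 1)) -
      (if p ∣ N then 0 else (p : ℂ) * coef f (p ^ j))
  points : ∀ p : ℕ, Good a b p → coef f p = (p : ℂ) + 1 - (numPoints a b p : ℂ)
  good : ∀ p : ℕ, p.Prime → ¬ p ∣ N → ‖coef f p‖ ≤ 2 * Real.sqrt p
  bad : ∀ p : ℕ, p.Prime → p ∣ N → coef f p = 0 ∨ coef f p = 1 ∨ coef f p = -1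

/-- Goldfeld's constant `T = √2 e^{mγ} m! / |F^{(m)}(1)|` -/
noncomputable def T (F : ℂ → ℂ) (m : ℕ) : ℝ :=
  √2 * Real.exp (m * Real.eulerMascheroniConstant) * (m.factorial : ℝ) / ‖iteratedDeriv m F 1‖

/-- `F` has no real zeros to the right of `1`. -/
def NoRealZeros (F : ℂ → ℂ) : Prop := ∀ s : ℝ, 1 < s → F s ≠ 0

/-- `A` is a limit point of `P(x) / (log x)^m`, `x → ∞`: there are `x_n → ∞` with
`P(x_n) / (log x_n)^m → A`. -/
def IsLimitPoint (a b : ℤ) (m : ℕ) (A : ℝ) : Prop :=
  ∃ x : ℕ → ℝ, Tendsto x atTop atTop ∧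
    Tendsto (fun n => P a b (x n) / Real.log (x n) ^ m) atTop (𝓝 A)

/-- the rank of the group of rational points of `y² = x³ + a x + b` -/
noncomputable def rank (a b : ℤ) : ℕ :=
  Module.finrank ℤ
    (WeierstrassCurve.Affine.Point
      (WeierstrassCurve.toAffine
        ({ a₁ := 0, a₂ := 0, a₃ := 0, a₄ := (a : ℚ), a₆ := (b : ℚ) } : WeierstrassCurve ℚ)))

/-! ### Translation to the definitions of the imported files -/

variable {a b : ℤ}

theorem P_eq : P a b = Pool.Agent.W263.BSD.bsdProduct a b := by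
  funext x
  unfold P Pool.Agent.W263.BSD.bsdProduct numPoints Pool.Agent.W263.BSD.pointCount
  refine Finset.prod_congr rfl fun p _ => ?_
  push_cast
  rfl

theorem numPoints_sub (p : ℕ) : (p : ℂ) + 1 - (numPoints a b p : ℂ) =
    (p : ℂ) - (Pool.Agent.W263.BSD.pointCount a b p : ℂ) := by
  unfold numPoints Pool.Agent.W263.BSD.pointCount
  push_cast
  ring

theorem isLSeries {F : ℂ → ℂ} (hF : IsLSeries a b F) :
    Pool.Agent.W263.BSD.IsLSeries a b F := by
  refine ⟨hF.1, fun s hs => ?_⟩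
  have h := hF.2 s hs
  simp only [numPoints_sub] at h
  exact h

theorem hecke {N : ℕ} {f : CuspForm (Gamma0 N : Subgroup (GL (Fin 2) ℝ)) 2}
    (hf : IsNewformOf a b N f) : Pool.Agent.TH941.Hecke f where
  one := hf.one
  real := hf.real
  mul := hf.mul
  pow := hf.pow
  good := hf.good
  bad := fun p hp h => by
    rcases hf.bad p hp h with h1 | h1 | h1
    · have h2 : ‖coef f p‖ ≤ 1 := by rw [h1]; simp
      exact h2
    · have h2 : ‖coef f p‖ ≤ 1 := by rw [h1]; simp
      exact h2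
    · have h2 : ‖coef f p‖ ≤ 1 := by rw [h1]; simp
      exact h2

theorem T_eq (F : ℂ → ℂ) (m : ℕ) : T F m = Pool.Agent.D0H40.PL.T1 F m := by
  unfold T Pool.Agent.D0H40.PL.T1 Pool.Agent.N586.BP.TT Pool.Agent.W263.BSD.leadAbs
  rw [div_div_eq_mul_div, mul_div_assoc', ← mul_assoc]

theorem limit_iff (m : ℕ) (A : ℝ) : IsLimitPoint a b m A ↔ Pool.Agent.D0H40.PL.LP a b m A := by
  unfold IsLimitPoint Pool.Agent.D0H40.PL.LP Pool.Agent.D0H40.PL.gq
  rw [P_eq]

/-- **The products along sequences, and one-sided bounds.** -/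
theorem result (a b : ℤ) (hΔ : 4 * a ^ 3 + 27 * b ^ 2 ≠ 0) (F : ℂ → ℂ) (hF : IsLSeries a b F) :
    ∃ m : ℕ, analyticOrderAt F 1 = m ∧
      (∀ u v w : ℝ, u ≤ v → v ≤ w → IsLimitPoint a b m u → IsLimitPoint a b m w →
        IsLimitPoint a b m v) ∧
      (∀ ρ : ℝ, (∀ ε : ℝ, 0 < ε → ∀ᶠ x : ℝ in atTop, P a b x ≤ Real.log x ^ (ρ + ε)) →
        (∀ s : ℂ, 1 < s.re → F s ≠ 0) ∧ (m : ℝ) ≤ ρ) ∧
      (NoRealZeros F → ∀ ρ : ℝ, (∀ ε : ℝ, 0 < ε → ∀ᶠ x : ℝ in atTop,
        Real.log x ^ (ρ - ε) ≤ P a b x) → ρ ≤ m) ∧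
      (NoRealZeros F → ∃ A : ℝ, 0 < A ∧ IsLimitPoint a b m A) ∧
      ∀ (N : ℕ) [NeZero N] (f : CuspForm (Gamma0 N : Subgroup (GL (Fin 2) ℝ)) 2),
        IsNewformOf a b N f →
        0 < T F m ∧ (∀ A : ℝ, A < T F m → ∃ᶠ x : ℝ in atTop, A * Real.log x ^ m < P a b x) ∧
        (NoRealZeros F → IsLimitPoint a b m (T F m)) ∧
        (NoRealZeros F → analyticOrderAt F 1 = rank a b →
          IsLimitPoint a b (rank a b) (T F (rank a b))) := by
  have hF' := isLSeries hF
  obtain ⟨m, hm⟩ := Pool.Agent.W263.BSD.order_finite hF'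
  refine ⟨m, hm, ?_, ?_, ?_, ?_, ?_⟩
  · intro u v w huv hvw hu hw
    rw [limit_iff] at hu hw ⊢
    exact hu.between huv hvw hw
  · intro ρ h
    rw [P_eq] at h
    exact Pool.Agent.D0H40.PL.one_upper hF' hm h
  · intro hne ρ h
    rw [P_eq] at h
    exact Pool.Agent.D0H40.PL.one_lower hF' hm hne h
  · intro hne
    obtain ⟨A, hA, h⟩ := Pool.Agent.D0H40.PL.limit_point' hF' hm hne
    exact ⟨A, hA, (limit_iff m A).2 h⟩
  · intro N _ f hf
    have hrs : Tendsto (Pool.Agent.W263.BSD.rsSum a b) atTop (𝓝 0) :=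
      (hecke hf).rsSum_tendsto hΔ fun p hp => (hf.points p hp).trans (numPoints_sub p)
    have hlim : NoRealZeros F → IsLimitPoint a b m (T F m) := by
      intro hne
      rw [limit_iff, T_eq]
      exact Pool.Agent.D0H40.PL.limit_point hΔ hrs hF' hm hne
    refine ⟨?_, ?_, hlim, ?_⟩
    · rw [T_eq]
      exact Pool.Agent.D0H40.PL.T1_pos hF' hm
    · intro A hA
      rw [T_eq] at hA
      rw [P_eq]
      refine ((Pool.Agent.D0H40.PL.br_up hΔ hrs hF' hm hA).and_eventually
        (eventually_gt_atTop 1)).mono ?_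
      rintro x ⟨h1, h2⟩
      unfold Pool.Agent.D0H40.PL.gq at h1
      rwa [lt_div_iff₀ (pow_pos (Real.log_pos h2) _)] at h1
    · intro hne h
      have e : m = rank a b := by
        rw [hm] at h
        exact_mod_cast h
      rw [← e]
      exact hlim hne

end Pool.Agent.Results.MP_696deb_nt.ProductLimitPoints
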